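import Pool.Agent.LinPeb.Defs

/-!
# Universal node maps

Node maps such that there are many functionals which are compatible with the node maps.
-/

set_option autoImplicit false

namespace Pool.Agent.LinPeb

open Finset TensorProduct

universe u

/-- The rules for the functionals `Lay ℓ` of layer `ℓ`, for the layers `ℓ < n`. -/
structure Rules (K : Type*) (X : Type*) {E : Type*} [Field K] [AddCommGroup E] [Module K E] (n : ℕ)
    (f : ℕ → X → E → E → E) (Lay : ℕ → Set (E →ₗ[K] K)) : Prop where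
  r0 : ∀ ℓ < n, ∃ D : (X → K) →ₗ[K] E →ₗ[K] K, ∀ κ, D κ ∈ Lay ℓ ∧
    (∀ x a b, D κ (f ℓ x a b) = κ x) ∧ ∀ ℓ' x a b, ℓ' ≠ ℓ → D κ (f ℓ' x a b) = 0
  r1 : ∀ ℓ, ℓ + 1 < n → ∀ φ ∈ Lay ℓ, ∀ ψ ∈ Lay ℓ, ∃ D : (X → K) →ₗ[K] E →ₗ[K] K, ∀ κ,
    D κ ∈ Lay (ℓ + 1) ∧ (∀ x a b, D κ (f (ℓ + 1) x a b) = κ x * (φ a * ψ b)) ∧
      ∀ ℓ' x a b, ℓ' ≠ ℓ + 1 → D κ (f ℓ' x a b) = 0
  r2 : ∀ ℓ, ℓ + 1 < n → ∀ ψ ∈ Lay ℓ, ∃ D : ((X → K) × (X → K)) →ₗ[K] E →ₗ[K] K, ∀ κ,
    D κ ∈ Lay (ℓ + 1) ∧ (∀ x a b, D κ (f (ℓ + 1) x a b) = κ.1 x * ψ a + κ.2 x * ψ b) ∧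
      ∀ ℓ' x a b, ℓ' ≠ ℓ + 1 → D κ (f ℓ' x a b) = 0

section Step

variable {K : Type u} [Field K] {X : Type} [Fintype X] [DecidableEq X] {E : Type u}
  [AddCommGroup E] [Module K E]

/-- The data of one node of a new layer. -/
abbrev NW (K E : Type u) [Field K] [AddCommGroup E] [Module K E] : Type u :=
  K × (E ⊗[K] E) × E × E

/-- The old maps in the new space. -/
def low (X : Type) (g : NodeMap K E) : NodeMap K (E × (X → NW K E)) where
  bil := (g.bil.compl₁₂ (LinearMap.fst K E (X → NW K E))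
    (LinearMap.fst K E (X → NW K E))).compr₂ (LinearMap.inl K E (X → NW K E))
  left := LinearMap.inl K E (X → NW K E) ∘ₗ g.left ∘ₗ LinearMap.fst K E (X → NW K E)
  right := LinearMap.inl K E (X → NW K E) ∘ₗ g.right ∘ₗ LinearMap.fst K E (X → NW K E)
  cst := (g.cst, 0)

omit [Fintype X] [DecidableEq X] in
theorem low_app (g : NodeMap K E) (a b : E × (X → NW K E)) :
    (low X g).app a b = (g.app a.1 b.1, 0) := by
  simp [NodeMap.app, low]

/-- The injection of the data of the node `x`. -/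
def inj (x : X) : NW K E →ₗ[K] E × (X → NW K E) :=
  LinearMap.inr K E (X → NW K E) ∘ₗ LinearMap.single K (fun _ => NW K E) x

/-- The maps of the new nodes. -/
def top (x : X) : NodeMap K (E × (X → NW K E)) where
  bil := ((TensorProduct.mk K E E).compl₁₂ (LinearMap.fst K E (X → NW K E))
    (LinearMap.fst K E (X → NW K E))).compr₂
      (inj x ∘ₗ LinearMap.inr K K ((E ⊗[K] E) × E × E) ∘ₗ LinearMap.inl K (E ⊗[K] E) (E × E))
  left := inj x ∘ₗ LinearMap.inr K K ((E ⊗[K] E) × E × E) ∘ₗ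
    LinearMap.inr K (E ⊗[K] E) (E × E) ∘ₗ LinearMap.inl K E E ∘ₗ
      LinearMap.fst K E (X → NW K E)
  right := inj x ∘ₗ LinearMap.inr K K ((E ⊗[K] E) × E × E) ∘ₗ
    LinearMap.inr K (E ⊗[K] E) (E × E) ∘ₗ LinearMap.inr K E E ∘ₗ
      LinearMap.fst K E (X → NW K E)
  cst := inj x (1, 0, 0, 0)

omit [Fintype X] in
theorem top_app (x : X) (a b : E × (X → NW K E)) :
    (top x).app a b = (0, Pi.single x (1, a.1 ⊗ₜ b.1, a.1, b.1)) := by
  have h : (top x).app a b = inj x (0, a.1 ⊗ₜ b.1, 0, 0) + inj x (0, 0, a.1, 0) +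
      inj x (0, 0, 0, b.1) + inj x (1, 0, 0, 0) := rfl
  rw [h, ← map_add, ← map_add, ← map_add]
  simp [inj]

/-- The functionals on the new space which are given by a functional on the data of a node. -/
def mulF (lam : NW K E →ₗ[K] K) : (X → K) →ₗ[K] (E × (X → NW K E)) →ₗ[K] K where
  toFun κ := ∑ x, κ x • (lam ∘ₗ LinearMap.proj x ∘ₗ LinearMap.snd K E (X → NW K E))
  map_add' κ κ' := by
    simp only [Pi.add_apply, add_smul, sum_add_distrib]
  map_smul' c κ := by
    simp only [Pi.smul_apply, smul_eq_mul, RingHom.id_apply, smul_sum, mul_smul]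

omit [DecidableEq X] in
theorem mulF_apply (lam : NW K E →ₗ[K] K) (κ : X → K) (a : E × (X → NW K E)) :
    mulF lam κ a = ∑ x, κ x * lam (a.2 x) := by
  simp [mulF, LinearMap.sum_apply]

theorem mulF_single (lam : NW K E →ₗ[K] K) (κ : X → K) (x : X) (e : E) (w : NW K E) :
    mulF lam κ (e, Pi.single x w) = κ x * lam w := by
  rw [mulF_apply, sum_eq_single x]
  · simp
  · intro x' _ hx
    have : (Pi.single x w : X → NW K E) x' = 0 :=
      Pi.single_eq_of_ne (M := fun _ : X => NW K E) hx w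
    change κ x' * lam ((Pi.single x w : X → NW K E) x') = 0
    rw [this, map_zero, mul_zero]
  · simp

omit [DecidableEq X] in
theorem mulF_zero (lam : NW K E →ₗ[K] K) (κ : X → K) (e : E) :
    mulF lam κ (e, 0) = 0 := by
  rw [mulF_apply]
  simp

end Step

theorem exists_rules (K : Type u) [Field K] (X : Type) [Fintype X] [DecidableEq X] (n : ℕ) :
    ∃ (E : Type u) (_ : AddCommGroup E) (_ : Module K E) (_ : Module.Finite K E)
      (g : ℕ → X → NodeMap K E) (Lay : ℕ → Set (E →ₗ[K] K)),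
      Rules K X n (fun ℓ x a b => (g ℓ x).app a b) Lay := by
  classical
  induction n with
  | zero =>
    refine ⟨PUnit, inferInstance, inferInstance, inferInstance,
      fun _ _ => ⟨0, 0, 0, 0⟩, fun _ => Set.univ, ⟨?_, ?_, ?_⟩⟩ <;> intro ℓ h <;> omega
  | succ n ih =>
    obtain ⟨E, i1, i2, i3, g, Lay, hr⟩ := ih
    refine ⟨E × (X → NW K E), inferInstance, inferInstance, inferInstance,
      fun ℓ x => if ℓ = n then top x else low X (g ℓ x),
      fun ℓ => if ℓ < n then {Φ | ∃ φ ∈ Lay ℓ, Φ = φ ∘ₗ LinearMap.fst K E (X → NW K E)}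
        else Set.univ, ⟨?_, ?_, ?_⟩⟩
    · intro ℓ hℓ
      rcases Nat.lt_succ_iff_lt_or_eq.1 hℓ with h | rfl
      · obtain ⟨D, hD⟩ := hr.r0 ℓ h
        refine ⟨(LinearMap.lcomp K K (LinearMap.fst K E (X → NW K E))) ∘ₗ D, fun κ => ⟨?_, ?_, ?_⟩⟩
        · rw [if_pos h]
          exact ⟨D κ, (hD κ).1, rfl⟩
        · intro x a b
          beta_reduce
          rw [if_neg h.ne, low_app]
          exact (hD κ).2.1 x a.1 b.1
        · intro ℓ' x a b hne
          beta_reduce
          by_cases h' : ℓ' = n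
          · rw [if_pos h', top_app]
            exact map_zero (D κ)
          · rw [if_neg h', low_app]
            exact (hD κ).2.2 ℓ' x a.1 b.1 hne
      · refine ⟨mulF (LinearMap.fst K K _), fun κ => ⟨?_, ?_, ?_⟩⟩
        · rw [if_neg (lt_irrefl ℓ)]
          trivial
        · intro x a b
          beta_reduce
          rw [if_pos rfl, top_app, mulF_single]
          simp
        · intro ℓ' x a b hne
          beta_reduce
          rw [if_neg hne, low_app, mulF_zero]
    · intro ℓ hℓ φ hφ ψ hψ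
      have hℓn : ℓ < n := by omega
      rw [if_pos hℓn] at hφ hψ
      obtain ⟨φ, hφ, rfl⟩ := hφ
      obtain ⟨ψ, hψ, rfl⟩ := hψ
      rcases Nat.lt_succ_iff_lt_or_eq.1 hℓ with h | h
      · obtain ⟨D, hD⟩ := hr.r1 ℓ h φ hφ ψ hψ
        refine ⟨(LinearMap.lcomp K K (LinearMap.fst K E (X → NW K E))) ∘ₗ D, fun κ => ⟨?_, ?_, ?_⟩⟩
        · rw [if_pos h]
          exact ⟨D κ, (hD κ).1, rfl⟩
        · intro x a b
          beta_reduce
          rw [if_neg h.ne, low_app]
          exact (hD κ).2.1 x a.1 b.1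
        · intro ℓ' x a b hne
          beta_reduce
          by_cases h' : ℓ' = n
          · rw [if_pos h', top_app]
            exact map_zero (D κ)
          · rw [if_neg h', low_app]
            exact (hD κ).2.2 ℓ' x a.1 b.1 hne
      · refine ⟨mulF (TensorProduct.lift ((LinearMap.mul K K).compl₁₂ φ ψ) ∘ₗ
          LinearMap.fst K (E ⊗[K] E) (E × E) ∘ₗ LinearMap.snd K K _), fun κ => ⟨?_, ?_, ?_⟩⟩
        · rw [if_neg (by omega)]
          trivial
        · intro x a b
          beta_reduce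
          rw [if_pos h, top_app, mulF_single]
          simp
        · intro ℓ' x a b hne
          beta_reduce
          rw [if_neg (by omega), low_app, mulF_zero]
    · intro ℓ hℓ ψ hψ
      have hℓn : ℓ < n := by omega
      rw [if_pos hℓn] at hψ
      obtain ⟨ψ, hψ, rfl⟩ := hψ
      rcases Nat.lt_succ_iff_lt_or_eq.1 hℓ with h | h
      · obtain ⟨D, hD⟩ := hr.r2 ℓ h ψ hψ
        refine ⟨(LinearMap.lcomp K K (LinearMap.fst K E (X → NW K E))) ∘ₗ D, fun κ => ⟨?_, ?_, ?_⟩⟩
        · rw [if_pos h]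
          exact ⟨D κ, (hD κ).1, rfl⟩
        · intro x a b
          beta_reduce
          rw [if_neg h.ne, low_app]
          exact (hD κ).2.1 x a.1 b.1
        · intro ℓ' x a b hne
          beta_reduce
          by_cases h' : ℓ' = n
          · rw [if_pos h', top_app]
            exact map_zero (D κ)
          · rw [if_neg h', low_app]
            exact (hD κ).2.2 ℓ' x a.1 b.1 hne
      · refine ⟨mulF (ψ ∘ₗ LinearMap.fst K E E ∘ₗ LinearMap.snd K (E ⊗[K] E) (E × E) ∘ₗ
          LinearMap.snd K K _) ∘ₗ LinearMap.fst K (X → K) (X → K) +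
          mulF (ψ ∘ₗ LinearMap.snd K E E ∘ₗ LinearMap.snd K (E ⊗[K] E) (E × E) ∘ₗ
          LinearMap.snd K K _) ∘ₗ LinearMap.snd K (X → K) (X → K), fun κ => ⟨?_, ?_, ?_⟩⟩
        · rw [if_neg (by omega)]
          trivial
        · intro x a b
          beta_reduce
          rw [if_pos h, top_app]
          simp only [LinearMap.add_apply, LinearMap.comp_apply, mulF_single]
          simp
        · intro ℓ' x a b hne
          beta_reduce
          rw [if_neg (by omega), low_app]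
          simp only [LinearMap.add_apply, LinearMap.comp_apply, mulF_zero, add_zero]

end Pool.Agent.LinPeb
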