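import Pool.Agent.LinPeb.Gen
import Pool.Agent.LinPeb.Univ

/-!
# Good sets of columns

A set of columns of a layer is good for an interval of rounds if some functional of this layer
vanishes on the registers in these rounds but on none of the values of these nodes. Three rules for
good sets; the rest of the proof of the lower bound only uses these rules.
-/

set_option autoImplicit false

namespace Pool.Agent.LinPeb

open Module Finset

/-- The rules for good sets. -/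
structure GoodRules {X : Type} [Fintype X] [DecidableEq X] (p q : ℕ → X → X) (h : ℕ) (ρ : ℕ → ℕ)
    (Gd : ℕ → ℕ → ℕ → Finset X → Prop) : Prop where
  base : ∀ ℓ ≤ h, ∀ s, ∃ R : Finset X, R.card ≤ ρ s ∧ Gd s 1 ℓ Rᶜ
  bil : ∀ ℓ < h, ∀ s n G G', Gd s n ℓ G → Gd (s + n) n ℓ G' → ∃ R : Finset X, R.card ≤ ρ s ∧
    Gd s (2 * n) (ℓ + 1) ((univ.filter fun x => p ℓ x ∈ G ∧ q ℓ x ∈ G') \ R)
  una : ∀ ℓ < h, ∀ s n G, Gd s n ℓ G → ∃ R : Finset X, R.card ≤ ρ s ∧
    Gd s n (ℓ + 1) ((univ.filter fun x => p ℓ x ∈ G ∨ q ℓ x ∈ G) \ R)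

section Core

variable {F K : Type*} [Field F] [Field K] [Algebra F K] {E : Type*} [AddCommGroup E] [Module F E]
  [Module K E] {X : Type} [Fintype X] [DecidableEq X] {h : ℕ}
  {f : ℕ → X → E → E → E} {Lay : ℕ → Set (E →ₗ[K] K)} {V : ℕ → Submodule F E}
  {y : ℕ → X → E} {A : Finset K}

/-- The set `G` of columns of the layer `ℓ` is good for the rounds `s, ..., s + n - 1`. -/
def Good (Lay : ℕ → Set (E →ₗ[K] K)) (V : ℕ → Submodule F E) (y : ℕ → X → E)
    (s n ℓ : ℕ) (G : Finset X) : Prop :=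
  ∃ φ ∈ Lay ℓ, (∀ t, s ≤ t → t < s + n → ∀ v ∈ V t, φ v = 0) ∧ ∀ x ∈ G, φ (y ℓ x) ≠ 0

variable [IsScalarTower F K E]

omit [Fintype X] [DecidableEq X] in
/-- A functional which vanishes on the registers after round `s` and on the answers to the queries
of the rounds `s + 1, ..., s + n - 1` vanishes on the registers after these rounds. -/
theorem kills_of (hV : ∀ t, V (t + 1) ≤
      V t ⊔ Submodule.span F {y | ∃ ℓ x, ∃ a ∈ V t, ∃ b ∈ V t, y = f ℓ x a b})
    (φ : E →ₗ[K] K) (s n : ℕ) (h0 : ∀ v ∈ V s, φ v = 0)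
    (hf : ∀ t, s ≤ t → t + 1 < s + n → ∀ ℓ x, ∀ a ∈ V t, ∀ b ∈ V t, φ (f ℓ x a b) = 0) :
    ∀ t, s ≤ t → t < s + n → ∀ v ∈ V t, φ v = 0 := by
  intro t hst
  induction t, hst using Nat.le_induction with
  | base => exact fun _ => h0
  | succ t hst ih =>
    intro hlt
    have h1 : V (t + 1) ≤ LinearMap.ker (φ.restrictScalars F) := by
      refine (hV t).trans (sup_le (fun v hv => ?_) (Submodule.span_le.2 ?_))
      · exact ih (by omega) v hv
      · rintro z ⟨ℓ, x, a, ha, b, hb, rfl⟩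
        exact hf t hst hlt ℓ x a ha b hb
    exact fun v hv => h1 hv

theorem goodRules [Module.Finite F E] (p q : ℕ → X → X)
    (hA : Fintype.card X < A.card)
    (hR : Rules K X (h + 1) f Lay)
    (hV : ∀ t, V (t + 1) ≤
      V t ⊔ Submodule.span F {y | ∃ ℓ x, ∃ a ∈ V t, ∃ b ∈ V t, y = f ℓ x a b})
    (hy0 : ∀ ℓ ≤ h, ∀ x, ∃ a b, y ℓ x = f ℓ x a b)
    (hy : ∀ ℓ, ∀ x, y (ℓ + 1) x = f (ℓ + 1) x (y ℓ (p ℓ x)) (y ℓ (q ℓ x))) :
    GoodRules p q h (fun s => finrank F (V s)) (Good Lay V y) := by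
  classical
  refine ⟨fun ℓ hℓ s => ?_, fun ℓ hℓ s n G G' hG hG' => ?_, fun ℓ hℓ s n G hG => ?_⟩
  · obtain ⟨D, hD⟩ := hR.r0 ℓ (by omega)
    obtain ⟨m, hm1, hm2⟩ := exists_functional D (V s) (y ℓ) univ (fun c => ⟨c, fun x _ => by
      obtain ⟨a, b, hab⟩ := hy0 ℓ hℓ x
      rw [hab, (hD c).2.1]⟩) hA
    refine ⟨_, hm2, D m, (hD m).1, fun t hst ht v hv => ?_, fun x hx h0 => ?_⟩
    · have : t = s := by omega
      subst this
      exact hm1 v hv
    · exact mem_compl.1 hx (mem_filter.2 ⟨mem_univ x, h0⟩)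
  · obtain ⟨φ, hφL, hφ0, hφG⟩ := hG
    obtain ⟨ψ, hψL, hψ0, hψG⟩ := hG'
    obtain ⟨D, hD⟩ := hR.r1 ℓ (by omega) φ hφL ψ hψL
    set S : Finset X := univ.filter fun x => p ℓ x ∈ G ∧ q ℓ x ∈ G' with hS
    obtain ⟨m, hm1, hm2⟩ := exists_functional D (V s) (y (ℓ + 1)) S (fun c =>
      ⟨fun x => c x / (φ (y ℓ (p ℓ x)) * ψ (y ℓ (q ℓ x))), fun x hx => by
        rw [hy, (hD _).2.1]
        have h1 := hφG _ (mem_filter.1 hx).2.1
        have h2 := hψG _ (mem_filter.1 hx).2.2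
        field_simp⟩) hA
    refine ⟨_, hm2, D m, (hD m).1, ?_, fun x hx h0 => ?_⟩
    · refine kills_of hV (D m) s _ hm1 fun t hst ht ℓ' x a ha b hb => ?_
      by_cases hℓ' : ℓ' = ℓ + 1
      · subst hℓ'
        rw [(hD m).2.1]
        by_cases htk : t < s + n
        · rw [hφ0 t hst htk a ha]
          ring
        · rw [hψ0 t (by omega) (by omega) b hb]
          ring
      · exact (hD m).2.2 ℓ' x a b hℓ'
    · obtain ⟨hxS, hxR⟩ := mem_sdiff.1 hx
      exact hxR (mem_filter.2 ⟨hxS, h0⟩)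
  · obtain ⟨Φ, hΦL, hΦ0, hΦG⟩ := hG
    obtain ⟨D, hD⟩ := hR.r2 ℓ (by omega) Φ hΦL
    set S : Finset X := univ.filter fun x => p ℓ x ∈ G ∨ q ℓ x ∈ G with hS
    obtain ⟨m, hm1, hm2⟩ := exists_functional D (V s) (y (ℓ + 1)) S (fun c =>
      ⟨(fun x => if p ℓ x ∈ G then c x / Φ (y ℓ (p ℓ x)) else 0,
        fun x => if p ℓ x ∈ G then 0 else c x / Φ (y ℓ (q ℓ x))), fun x hx => by
        rw [hy, (hD _).2.1]
        dsimp only
        by_cases hx1 : p ℓ x ∈ G
        · have h1 := hΦG _ hx1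
          rw [if_pos hx1, if_pos hx1]
          field_simp
          ring
        · have h1 := hΦG _ (((mem_filter.1 hx).2).resolve_left hx1)
          rw [if_neg hx1, if_neg hx1]
          field_simp
          ring⟩) hA
    refine ⟨_, hm2, D m, (hD m).1, ?_, fun x hx h0 => ?_⟩
    · refine kills_of hV (D m) s _ hm1 fun t hst ht ℓ' x a ha b hb => ?_
      by_cases hℓ' : ℓ' = ℓ + 1
      · subst hℓ'
        rw [(hD m).2.1, hΦ0 t hst (by omega) a ha, hΦ0 t hst (by omega) b hb]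
        ring
      · exact (hD m).2.2 ℓ' x a b hℓ'
    · obtain ⟨hxS, hxR⟩ := mem_sdiff.1 hx
      exact hxR (mem_filter.2 ⟨hxS, h0⟩)

end Core

end Pool.Agent.LinPeb
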