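import Mathlib

/-!
# Mixing in a butterfly

If a set of columns grows by the rule that a column becomes good if it or its partner in the current
direction is good, up to `ρ` exceptions in every step, then after the `d` directions all but `2 d ρ`
columns are good, if at least half of them were good at the beginning.
-/

set_option autoImplicit false

namespace Pool.Agent.LinPeb

open Finset

/-- The columns of a butterfly: the subsets of `{0, ..., d - 1}`. -/
abbrev Col (d : ℕ) : Type := Finset (Fin d)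

/-- The column which differs from `x` exactly in the element `ℓ mod d`. -/
def flip (d ℓ : ℕ) (x : Col d) : Col d :=
  symmDiff x (Finset.univ.filter fun i => (i : ℕ) = ℓ % d)

variable {d : ℕ}

theorem flip_eq (hd : 0 < d) (ℓ : ℕ) (x : Col d) :
    flip d ℓ x = symmDiff x {(⟨ℓ % d, Nat.mod_lt _ hd⟩ : Fin d)} := by
  unfold flip
  congr 1
  ext i
  simp [Fin.ext_iff]

theorem flip_flip (d ℓ : ℕ) (x : Col d) : flip d ℓ (flip d ℓ x) = x := by
  unfold flip
  rw [symmDiff_assoc, symmDiff_self]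
  simp

/-- The number of elements of `A` which can be reached from `x` by changing elements of `D`. -/
def cnt (A : Finset (Col d)) (D : Finset (Fin d)) (x : Col d) : ℕ :=
  ∑ S ∈ D.powerset, if symmDiff x S ∈ A then 1 else 0

theorem cnt_empty (A : Finset (Col d)) (x : Col d) : cnt A ∅ x = if x ∈ A then 1 else 0 := by
  have h : symmDiff x ∅ = x := symmDiff_bot x
  rw [cnt, powerset_empty, sum_singleton, h]

theorem cnt_insert (A : Finset (Col d)) (D : Finset (Fin d)) (e : Fin d) (he : e ∉ D)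
    (x : Col d) : cnt A (insert e D) x = cnt A D x + cnt A D (symmDiff x {e}) := by
  unfold cnt
  rw [sum_powerset_insert he]
  congr 1
  refine sum_congr rfl fun S hS => ?_
  have hS' : e ∉ S := fun h => he (mem_powerset.1 hS h)
  have : symmDiff x (insert e S) = symmDiff (symmDiff x {e}) S := by
    rw [symmDiff_assoc]
    congr 1
    ext i
    simp only [mem_insert, mem_symmDiff, mem_singleton]
    constructor
    · rintro (rfl | h)
      · exact Or.inl ⟨rfl, hS'⟩
      · exact Or.inr ⟨h, fun h' => hS' (h' ▸ h)⟩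
    · rintro (⟨h, _⟩ | ⟨h, _⟩)
      · exact Or.inl h
      · exact Or.inr h
  rw [this]

theorem cnt_univ (A : Finset (Col d)) (x : Col d) : cnt A univ x = A.card := by
  unfold cnt
  rw [powerset_univ]
  have : ∑ S : Finset (Fin d), (if symmDiff x S ∈ A then 1 else 0) =
      ∑ S : Finset (Fin d), if S ∈ A then 1 else 0 := by
    refine Fintype.sum_equiv (Function.Involutive.toPerm (fun S => symmDiff x S) ?_) _ _ ?_
    · intro S
      exact symmDiff_symmDiff_cancel_left x S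
    · intro S
      rfl
  rw [this]
  simp

theorem cnt_le (A : Finset (Col d)) (D : Finset (Fin d)) (x : Col d) :
    cnt A D x ≤ 2 ^ D.card := by
  unfold cnt
  refine (sum_le_card_nsmul _ _ 1 fun S _ => ?_).trans ?_
  · split_ifs <;> simp
  · simp

/-- The directions used in the steps `0, ..., j - 1`. -/
def dirs (hd : 0 < d) (ℓ₀ j : ℕ) : Finset (Fin d) :=
  (range j).image fun i => ⟨(ℓ₀ + i) % d, Nat.mod_lt _ hd⟩

theorem dirs_succ (hd : 0 < d) (ℓ₀ j : ℕ) :
    dirs hd ℓ₀ (j + 1) = insert ⟨(ℓ₀ + j) % d, Nat.mod_lt _ hd⟩ (dirs hd ℓ₀ j) := by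
  unfold dirs
  rw [range_add_one, image_insert]

theorem notMem_dirs (hd : 0 < d) (ℓ₀ j : ℕ) (hj : j < d) :
    (⟨(ℓ₀ + j) % d, Nat.mod_lt _ hd⟩ : Fin d) ∉ dirs hd ℓ₀ j := by
  unfold dirs
  intro h
  obtain ⟨i, hi, h⟩ := mem_image.1 h
  rw [mem_range] at hi
  rw [Fin.ext_iff] at h
  have h1 : ℓ₀ + i ≡ ℓ₀ + j [MOD d] := h
  have h2 : i ≡ j [MOD d] := Nat.ModEq.add_left_cancel' _ h1
  have := Nat.ModEq.eq_of_lt_of_lt h2 (by omega) hj
  omega

theorem card_dirs (hd : 0 < d) (ℓ₀ : ℕ) : ∀ j, j ≤ d → (dirs hd ℓ₀ j).card = j := by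
  intro j
  induction j with
  | zero => intro _; simp [dirs]
  | succ j ih =>
    intro hj
    rw [dirs_succ, card_insert_of_notMem (notMem_dirs hd ℓ₀ j (by omega)), ih (by omega)]

theorem dirs_full (hd : 0 < d) (ℓ₀ : ℕ) : dirs hd ℓ₀ d = univ := by
  rw [← card_eq_iff_eq_univ, card_dirs hd ℓ₀ d le_rfl, Fintype.card_fin]

/-- The invariant: the columns in `B` carry a large weight. -/
def Wt (hd : 0 < d) (A : Finset (Col d)) (ρ ℓ₀ j : ℕ) (B : Finset (Col d)) : Prop :=
  ∃ b : Col d → ℕ, (∀ x, b x ≠ 0 → x ∈ B) ∧ (∀ x, b x ≤ cnt A (dirs hd ℓ₀ j) x) ∧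
    2 ^ j * A.card ≤ ∑ x, b x + ρ * j * 2 ^ j

theorem Wt.zero (hd : 0 < d) (A : Finset (Col d)) (ρ ℓ₀ : ℕ) : Wt hd A ρ ℓ₀ 0 A := by
  refine ⟨fun x => if x ∈ A then 1 else 0, fun x hx => ?_, fun x => ?_, ?_⟩
  · by_contra h
    simp [h] at hx
  · simp [dirs, cnt_empty]
  · simp

theorem Wt.succ (hd : 0 < d) {A : Finset (Col d)} {ρ ℓ₀ j : ℕ} {B B' : Finset (Col d)}
    (hW : Wt hd A ρ ℓ₀ j B) (hj : j < d) (R : Finset (Col d)) (hR : R.card ≤ ρ)
    (hB : ∀ x, x ∉ R → (x ∈ B ∨ flip d (ℓ₀ + j) x ∈ B) → x ∈ B') :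
    Wt hd A ρ ℓ₀ (j + 1) B' := by
  classical
  obtain ⟨b, hb1, hb2, hb3⟩ := hW
  have hcnt : ∀ x, b x + b (flip d (ℓ₀ + j) x) ≤ cnt A (dirs hd ℓ₀ (j + 1)) x := by
    intro x
    rw [dirs_succ, cnt_insert _ _ _ (notMem_dirs hd ℓ₀ j hj), ← flip_eq hd]
    exact add_le_add (hb2 x) (hb2 _)
  refine ⟨fun x => if x ∈ R then 0 else b x + b (flip d (ℓ₀ + j) x), fun x hx => ?_, fun x => ?_,
    ?_⟩
  · by_cases hxR : x ∈ R
    · simp [hxR] at hx
    · simp only [hxR, if_false] at hx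
      refine hB x hxR ?_
      by_cases h : b x = 0
      · right
        refine hb1 _ fun h' => hx ?_
        rw [h, h']
      · exact Or.inl (hb1 x h)
  · dsimp only
    split_ifs
    · exact Nat.zero_le _
    · exact hcnt x
  · have h1 : ∑ x, b (flip d (ℓ₀ + j) x) = ∑ x, b x := by
      refine Fintype.sum_equiv (Function.Involutive.toPerm (flip d (ℓ₀ + j)) ?_) _ _ ?_
      · exact flip_flip d (ℓ₀ + j)
      · intro x
        rfl
    have h2 : ∑ x, (b x + b (flip d (ℓ₀ + j) x)) = 2 * ∑ x, b x := by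
      rw [sum_add_distrib, h1]
      ring
    have h3 : ∑ x, (b x + b (flip d (ℓ₀ + j) x)) ≤
        ∑ x, (if x ∈ R then 0 else b x + b (flip d (ℓ₀ + j) x)) +
          ∑ x, if x ∈ R then 2 ^ (j + 1) else 0 := by
      rw [← sum_add_distrib]
      refine sum_le_sum fun x _ => ?_
      split_ifs
      · rw [zero_add]
        refine (hcnt x).trans ((cnt_le _ _ _).trans ?_)
        rw [card_dirs hd ℓ₀ (j + 1) hj]
      · simp
    have h4 : ∑ x : Col d, (if x ∈ R then 2 ^ (j + 1) else 0) ≤ ρ * 2 ^ (j + 1) := by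
      rw [← sum_filter]
      simp only [filter_mem_eq_inter, univ_inter, sum_const, smul_eq_mul]
      exact Nat.mul_le_mul_right _ hR
    have h5 : 2 ^ (j + 1) = 2 * 2 ^ j := pow_succ' 2 j
    rw [h5] at h4 h3 ⊢
    nlinarith [h2, h3, h4, hb3]

/-- **The mixing lemma.** -/
theorem Wt.final (hd : 0 < d) {A : Finset (Col d)} {ρ ℓ₀ : ℕ} {B : Finset (Col d)}
    (hW : Wt hd A ρ ℓ₀ d B) (hA : 2 ^ d ≤ 2 * A.card) : (Bᶜ).card ≤ 2 * d * ρ := by
  classical
  obtain ⟨b, hb1, hb2, hb3⟩ := hW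
  rw [dirs_full hd] at hb2
  have h1 : ∑ x, b x ≤ B.card * A.card := by
    have : ∑ x, b x = ∑ x ∈ B, b x := by
      refine (sum_subset (subset_univ B) fun x _ hx => ?_).symm
      by_contra h
      exact hx (hb1 x h)
    rw [this]
    refine (sum_le_card_nsmul _ _ A.card fun x _ => ?_).trans ?_
    · rw [← cnt_univ A x]
      exact hb2 x
    · simp
  have h2 : (Bᶜ).card + B.card = 2 ^ d := by
    rw [card_compl_add_card, Fintype.card_finset, Fintype.card_fin]
  have h3 : 0 < A.card := by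
    have : 0 < 2 ^ d := by positivity
    omega
  have h4 : (Bᶜ).card * A.card ≤ ρ * d * 2 ^ d := by
    have : ((Bᶜ).card + B.card) * A.card = 2 ^ d * A.card := by rw [h2]
    nlinarith
  have h5 : (Bᶜ).card * A.card ≤ (2 * d * ρ) * A.card := by
    refine h4.trans ?_
    calc ρ * d * 2 ^ d ≤ ρ * d * (2 * A.card) := Nat.mul_le_mul_left _ hA
      _ = 2 * d * ρ * A.card := by ring
  exact Nat.le_of_mul_le_mul_right h5 h3

end Pool.Agent.LinPeb
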