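import Mathlib

/-!
# Linear computations on layered directed acyclic graphs: definitions

A layered graph with the columns `X` is given by maps `p, q : ℕ → X → X`: the nodes are the pairs
`(ℓ, x)`, and the node `(ℓ + 1, x)` has the predecessors `(ℓ, p ℓ x)` and `(ℓ, q ℓ x)`.
-/

set_option autoImplicit false

namespace Pool.Agent.LinPeb

universe u v

/-- Affine bilinear maps `E × E → E`, `(a, b) ↦ B a b + L a + R b + c`, where `B` is bilinear and
`L`, `R` are linear. -/
structure NodeMap (F : Type u) (E : Type v) [Field F] [AddCommGroup E] [Module F E] where
  bil : E →ₗ[F] E →ₗ[F] E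
  left : E →ₗ[F] E
  right : E →ₗ[F] E
  cst : E

/-- The value of an affine bilinear map. -/
def NodeMap.app {F : Type u} {E : Type v} [Field F] [AddCommGroup E] [Module F E]
    (f : NodeMap F E) (a b : E) : E :=
  f.bil a b + f.left a + f.right b + f.cst

/-- The values of the nodes: the value of `(ℓ + 1, x)` is obtained by applying its map to the values
of its two predecessors, and the value of `(0, x)` is the constant of its map. -/
def value {F : Type u} {E : Type v} [Field F] [AddCommGroup E] [Module F E] {X : Type}
    (p q : ℕ → X → X) (f : ℕ → X → NodeMap F E) : ℕ → X → E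
  | 0, x => (f 0 x).cst
  | ℓ + 1, x => (f (ℓ + 1) x).app (value p q f ℓ (p ℓ x)) (value p q f ℓ (q ℓ x))

/-- A linear computation with `r` registers and `T` rounds for the nodes of the layers `0, ..., h`:
`R t i` is the content of the register `i` after `t` rounds. At the beginning the registers contain
`0`. In a round the computation may evaluate the maps of all nodes at arbitrary pairs of linear
combinations of the contents of the registers; the new contents of the registers are arbitrary linear
combinations of the old contents and of these values. -/
structure IsComputation {F : Type u} {E : Type v} [Field F] [AddCommGroup E] [Module F E]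
    {X : Type} (h : ℕ) (f : ℕ → X → NodeMap F E) {r : ℕ} (T : ℕ) (R : ℕ → Fin r → E) : Prop where
  start : ∀ i, R 0 i = 0
  step : ∀ t < T, ∀ i, R (t + 1) i ∈ Submodule.span F (Set.range (R t)) ⊔
    Submodule.span F {y | ∃ ℓ ≤ h, ∃ x, ∃ a ∈ Submodule.span F (Set.range (R t)),
      ∃ b ∈ Submodule.span F (Set.range (R t)), y = (f ℓ x).app a b}

end Pool.Agent.LinPeb
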