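import Mathlib

/-!
# A mixing bipartite graph

For a set with at most `128 (r + 1)` elements there is a map which assigns `256` neighbours to every
element such that no set containing at most half of the elements contains all neighbours of more than
`r` elements. The proof counts the maps.
-/

set_option autoImplicit false

namespace Pool.Agent.LinPeb

open Finset

/-- The maps for which all neighbours of the elements of `M` are in `Z`. -/
def badMaps {A : Type} [Fintype A] [DecidableEq A] (D : ℕ) (Z M : Finset A) :
    Finset (A → Fin D → A) :=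
  Fintype.piFinset fun x => if x ∈ M then Fintype.piFinset fun _ => Z else univ

theorem card_badMaps {A : Type} [Fintype A] [DecidableEq A] (D : ℕ) (Z M : Finset A)
    (hZ : 2 * Z.card ≤ Fintype.card A) :
    (badMaps D Z M).card * 2 ^ (D * M.card) ≤ Fintype.card (A → Fin D → A) := by
  have h1 : (badMaps D Z M).card =
      ∏ x : A, (if x ∈ M then Z.card ^ D else Fintype.card A ^ D) := by
    unfold badMaps
    rw [Fintype.card_piFinset]
    refine prod_congr rfl fun x _ => ?_
    split_ifs
    · rw [Fintype.card_piFinset, prod_const, card_univ, Fintype.card_fin]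
    · rw [card_univ, Fintype.card_fun, Fintype.card_fin]
  have h2 : (2 : ℕ) ^ (D * M.card) = ∏ x : A, (if x ∈ M then 2 ^ D else 1) := by
    rw [prod_ite, prod_const_one, mul_one, prod_const, pow_mul]
    congr 2
    ext x
    simp
  have h3 : Fintype.card (A → Fin D → A) = ∏ _x : A, Fintype.card A ^ D := by
    rw [Fintype.card_fun, Fintype.card_fun, Fintype.card_fin, prod_const, card_univ]
  rw [h1, h2, h3, ← prod_mul_distrib]
  refine prod_le_prod' fun x _ => ?_
  split_ifs
  · rw [← mul_pow]
    exact Nat.pow_le_pow_left (by omega) D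
  · rw [mul_one]

/-- **The mixing graph.** -/
theorem exists_mixing {A : Type} [Fintype A] [DecidableEq A] (D r : ℕ)
    (hD : 2 * Fintype.card A < D * (r + 1)) (hA : 0 < Fintype.card A) :
    ∃ N : A → Fin D → A, ∀ Z : Finset A, 2 * Z.card ≤ Fintype.card A →
      (univ.filter fun x => ∀ u, N x u ∈ Z).card ≤ r := by
  classical
  by_contra hcon
  push Not at hcon
  let I : Finset (Finset A × Finset A) :=
    univ.filter fun P => 2 * P.1.card ≤ Fintype.card A ∧ P.2.card = r + 1
  have h1 : (univ : Finset (A → Fin D → A)) ⊆ I.biUnion fun P => badMaps D P.1 P.2 := by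
    intro N _
    obtain ⟨Z, hZ, hN⟩ := hcon N
    obtain ⟨M, hM1, hM2⟩ := exists_subset_card_eq (Nat.succ_le_of_lt hN)
    refine mem_biUnion.2 ⟨(Z, M), mem_filter.2 ⟨mem_univ _, hZ, hM2⟩, ?_⟩
    refine Fintype.mem_piFinset.2 fun x => ?_
    split_ifs with hx
    · exact Fintype.mem_piFinset.2 fun u => (mem_filter.1 (hM1 hx)).2 u
    · exact mem_univ _
  have h2 := card_le_card h1
  rw [card_univ] at h2
  have h3 : (I.biUnion fun P => badMaps D P.1 P.2).card * 2 ^ (D * (r + 1)) ≤
      2 ^ (2 * Fintype.card A) * Fintype.card (A → Fin D → A) := by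
    refine (Nat.mul_le_mul_right _ card_biUnion_le).trans ?_
    rw [sum_mul]
    refine (sum_le_card_nsmul I _ (Fintype.card (A → Fin D → A)) fun P hP => ?_).trans ?_
    · obtain ⟨_, hP1, hP2⟩ := mem_filter.1 hP
      rw [← hP2]
      exact card_badMaps D P.1 P.2 hP1
    · rw [smul_eq_mul]
      refine Nat.mul_le_mul_right _ ((card_le_univ I).trans (le_of_eq ?_))
      rw [Fintype.card_prod, Fintype.card_finset]
      ring
  have h4 : 0 < Fintype.card (A → Fin D → A) := by
    haveI : Nonempty A := Fintype.card_pos_iff.1 hA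
    exact Fintype.card_pos
  have h5 : Fintype.card (A → Fin D → A) * 2 ^ (D * (r + 1)) ≤
      Fintype.card (A → Fin D → A) * 2 ^ (2 * Fintype.card A) := by
    calc Fintype.card (A → Fin D → A) * 2 ^ (D * (r + 1)) ≤
        (I.biUnion fun P => badMaps D P.1 P.2).card * 2 ^ (D * (r + 1)) :=
          Nat.mul_le_mul_right _ h2
      _ ≤ _ := h3
      _ = _ := by ring
  have h6 := Nat.le_of_mul_le_mul_left h5 h4
  have h7 := (Nat.pow_le_pow_iff_right (by norm_num : 1 < 2)).1 h6
  omega

end Pool.Agent.LinPeb
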