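import Pool.Agent.LinPeb.Graph

/-!
# Large finite extensions, and the lower bound over every field
-/

set_option autoImplicit false

namespace Pool.Agent.LinPeb

open Module Finset

universe u v

/-- Every field has finite extensions with arbitrarily many elements. -/
theorem exists_extension (F : Type u) [Field F] (n : ℕ) :
    ∃ (K : Type u) (_ : Field K) (_ : Algebra F K) (_ : Module.Finite F K) (A : Finset K),
      n < A.card := by
  classical
  obtain ⟨S, hS⟩ := Infinite.exists_subset_card_eq (AlgebraicClosure F) (n + 1)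
  let K := IntermediateField.adjoin F (S : Set (AlgebraicClosure F))
  have hfin : FiniteDimensional F K := IntermediateField.finiteDimensional_adjoin
    fun x _ => (Algebra.IsAlgebraic.isAlgebraic x).isIntegral
  let emb : {x // x ∈ S} ↪ K :=
    ⟨fun x => ⟨x.1, IntermediateField.subset_adjoin F _ x.2⟩, fun x y hxy =>
      Subtype.ext (congrArg (fun z : K => (z : AlgebraicClosure F)) hxy)⟩
  refine ⟨K, inferInstance, inferInstance, hfin, S.attach.map emb, ?_⟩
  rw [card_map, card_attach, hS]
  exact Nat.lt_succ_self n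

/-- Node maps over an extension field, transported to another space over the small field. -/
def NodeMap.conj {F : Type u} {K : Type u} [Field F] [Field K] [Algebra F K] {E : Type u}
    [AddCommGroup E] [Module F E] [Module K E] [IsScalarTower F K E] {E' : Type v}
    [AddCommGroup E'] [Module F E'] (e : E ≃ₗ[F] E') (g : NodeMap K E) : NodeMap F E' where
  bil := LinearMap.mk₂ F (fun a b => e (g.bil (e.symm a) (e.symm b)))
    (fun a a' b => by simp)
    (fun c a b => by
      rw [map_smul, ← algebraMap_smul K c (e.symm a), map_smul, LinearMap.smul_apply,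
        algebraMap_smul, map_smul])
    (fun a b b' => by simp)
    (fun c a b => by
      rw [map_smul, ← algebraMap_smul K c (e.symm b), map_smul, algebraMap_smul, map_smul])
  left := e.toLinearMap ∘ₗ (g.left.restrictScalars F) ∘ₗ e.symm.toLinearMap
  right := e.toLinearMap ∘ₗ (g.right.restrictScalars F) ∘ₗ e.symm.toLinearMap
  cst := e g.cst

theorem NodeMap.conj_app {F : Type u} {K : Type u} [Field F] [Field K] [Algebra F K] {E : Type u}
    [AddCommGroup E] [Module F E] [Module K E] [IsScalarTower F K E] {E' : Type v}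
    [AddCommGroup E'] [Module F E'] (e : E ≃ₗ[F] E') (g : NodeMap K E) (a b : E') :
    (g.conj e).app a b = e (g.app (e.symm a) (e.symm b)) := by
  simp [NodeMap.app, NodeMap.conj]

theorem value_conj {F : Type u} {K : Type u} [Field F] [Field K] [Algebra F K] {E : Type u}
    [AddCommGroup E] [Module F E] [Module K E] [IsScalarTower F K E] {E' : Type v}
    [AddCommGroup E'] [Module F E'] (e : E ≃ₗ[F] E') {X : Type} (p q : ℕ → X → X)
    (g : ℕ → X → NodeMap K E) :
    ∀ ℓ x, value p q (fun ℓ x => (g ℓ x).conj e) ℓ x = e (value p q g ℓ x)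
  | 0, x => rfl
  | ℓ + 1, x => by
    rw [value, value, NodeMap.conj_app, value_conj e p q g ℓ (p ℓ x),
      value_conj e p q g ℓ (q ℓ x), LinearEquiv.symm_apply_apply, LinearEquiv.symm_apply_apply]

/-- The lower bound for the graphs `prd N k`. -/
theorem lower_bound (F : Type u) [Field F] {d k h r : ℕ} (hd0 : 0 < d) (hd : 38 * r ≤ 2 ^ d)
    {N : Col d → Fin 256 → Col d}
    (hN : ∀ Z : Finset (Col d), 2 * Z.card ≤ Fintype.card (Col d) →
      (univ.filter fun x => ∀ u, N x u ∈ Z).card ≤ r) (hh : 9 * k + d ≤ h) :
    ∃ (m : ℕ) (f : ℕ → Col d × Fin 128 → NodeMap F (Fin m → F)),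
      ∀ (T : ℕ) (R : ℕ → Fin r → (Fin m → F)), IsComputation h f T R → T < 2 ^ k →
        value (prd N k 0) (prd N k 1) f h (∅, 0) ∉ Submodule.span F (Set.range (R T)) := by
  classical
  obtain ⟨K, iK, iA, iF, A, hA⟩ := exists_extension F (Fintype.card (Col d × Fin 128))
  obtain ⟨E, i1, i2, i3, g, Lay, hR⟩ := exists_rules K (Col d × Fin 128) (h + 1)
  let _ : Module F E := Module.compHom E (algebraMap F K)
  have : IsScalarTower F K E := ⟨fun a b x => by
    rw [Algebra.smul_def, mul_smul]
    rfl⟩
  have : Module.Finite F E := Module.Finite.trans K E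
  let e : E ≃ₗ[F] (Fin (finrank F E) → F) := (finBasis F E).equivFun
  refine ⟨finrank F E, fun ℓ x => (g ℓ x).conj e, fun T R hV hT hx => ?_⟩
  rw [value_conj] at hx
  let V : ℕ → Submodule F (Fin (finrank F E) → F) := fun t => Submodule.span F (Set.range (R t))
  have hVstep : ∀ t < T, V (t + 1) ≤ V t ⊔ Submodule.span F
      {y | ∃ ℓ ≤ h, ∃ x, ∃ a ∈ V t, ∃ b ∈ V t, y = ((g ℓ x).conj e).app a b} := by
    intro t ht
    refine Submodule.span_le.2 ?_
    rintro _ ⟨i, rfl⟩
    exact hV.step t ht i
  have hVr : ∀ t, finrank F (V t) ≤ r := by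
    intro t
    have := finrank_range_le_card (R := F) (R t)
    rwa [Fintype.card_fin] at this
  let W : ℕ → Submodule F E := fun t => (V (min t T)).comap e.toLinearMap
  have hW0 : W 0 = ⊥ := by
    change (V (min 0 T)).comap e.toLinearMap = ⊥
    have h0 : V 0 = ⊥ := by
      refine Submodule.span_eq_bot.2 ?_
      rintro _ ⟨i, rfl⟩
      exact hV.start i
    rw [Nat.zero_min, h0]
    exact LinearMap.ker_eq_bot.2 e.injective
  have hWr : ∀ s, finrank F (W s) ≤ r := by
    intro s
    refine le_trans ?_ (hVr (min s T))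
    change finrank F ((V (min s T)).comap e.toLinearMap) ≤ _
    let j : (V (min s T)).comap e.toLinearMap →ₗ[F] V (min s T) :=
      LinearMap.codRestrict _ (e.toLinearMap ∘ₗ Submodule.subtype _) fun z => z.2
    refine LinearMap.finrank_le_finrank_of_injective (f := j) ?_
    intro a b hab
    have h := congrArg (Submodule.subtype (V (min s T))) hab
    exact Subtype.ext (e.injective h)
  have hG := goodRules (F := F) (K := K) (V := W) (y := fun ℓ x =>
    value (prd N k 0) (prd N k 1) g ℓ x) (prd N k 0) (prd N k 1) hA hR ?_ ?_ ?_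
  · obtain ⟨G, ⟨φ, -, hφ, hφG⟩, hGa⟩ := graph_good (r := r) hd0 hG hWr (by
      rw [hW0, finrank_bot]) hd hN hh
    refine hφG _ (hGa ∅) (hφ T (Nat.zero_le _) (by omega) _ ?_)
    change e (value (prd N k 0) (prd N k 1) g h (∅, 0)) ∈ V (min T T)
    rwa [min_self]
  · intro t
    by_cases ht : t < T
    · have h1 : min (t + 1) T = t + 1 := by omega
      have h2 : min t T = t := by omega
      change (V (min (t + 1) T)).comap e.toLinearMap ≤ _
      have h3 : W t = (V t).comap e.toLinearMap := by
        change (V (min t T)).comap e.toLinearMap = _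
        rw [h2]
      rw [h1]
      intro v hv
      have h4 := hVstep t ht (Submodule.mem_comap.1 hv)
      have h5 : V t ⊔ Submodule.span F
          {y | ∃ ℓ ≤ h, ∃ x, ∃ a ∈ V t, ∃ b ∈ V t, y = ((g ℓ x).conj e).app a b} ≤
          (W t ⊔ Submodule.span F
            {y | ∃ ℓ x, ∃ a ∈ W t, ∃ b ∈ W t, y = (g ℓ x).app a b}).map e.toLinearMap := by
        rw [Submodule.map_sup]
        refine sup_le_sup ?_ ?_
        · intro z hz
          refine ⟨e.symm z, ?_, e.apply_symm_apply z⟩
          rw [h3]
          change e (e.symm z) ∈ V t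
          rwa [e.apply_symm_apply]
        · rw [Submodule.span_le]
          rintro z ⟨ℓ, _, x, a, ha, b, hb, rfl⟩
          refine ⟨(g ℓ x).app (e.symm a) (e.symm b), Submodule.subset_span
            ⟨ℓ, x, e.symm a, ?_, e.symm b, ?_, rfl⟩, ?_⟩
          · rw [h3]
            change e (e.symm a) ∈ V t
            rwa [e.apply_symm_apply]
          · rw [h3]
            change e (e.symm b) ∈ V t
            rwa [e.apply_symm_apply]
          · rw [NodeMap.conj_app]
            rfl
      obtain ⟨w, hw, hwv⟩ := h5 h4
      have : w = v := e.injective hwv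
      rwa [this] at hw
    · have h1 : min (t + 1) T = T := by omega
      have h2 : min t T = T := by omega
      have h3 : W (t + 1) = W t := by
        change (V (min (t + 1) T)).comap e.toLinearMap = (V (min t T)).comap e.toLinearMap
        rw [h1, h2]
      rw [h3]
      exact le_sup_left
  · intro ℓ _ x
    cases ℓ with
    | zero =>
      refine ⟨0, 0, ?_⟩
      simp [value, NodeMap.app]
    | succ ℓ => exact ⟨_, _, rfl⟩
  · intro ℓ x
    rfl

end Pool.Agent.LinPeb
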