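import Mathlib

/-!
# Generic choices

A subspace of dimension `n` of `K ^ X` contains a vector with at least `n` nonzero coordinates if
the field `K` has more than `|X|` elements; the version with functionals which is used for the lower
bound for linear computations.
-/

set_option autoImplicit false

namespace Pool.Agent.LinPeb

open Module Finset

section Gen

variable {K : Type*} [Field K]

/-- A vector which avoids finitely many hyperplanes. -/
theorem exists_generic {X : Type*} [DecidableEq X] (W : Submodule K (X → K)) {A : Finset K} :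
    ∀ T : Finset X, T.card < A.card → (∀ x ∈ T, ∃ w ∈ W, w x ≠ 0) →
      ∃ w ∈ W, ∀ x ∈ T, w x ≠ 0 := by
  classical
  intro T
  induction T using Finset.induction_on with
  | empty => exact fun _ _ => ⟨0, W.zero_mem, by simp⟩
  | insert a T ha ih =>
    intro hc h
    have hc' : T.card < A.card := lt_of_le_of_lt (card_le_card (subset_insert a T)) hc
    obtain ⟨w, hw, hwT⟩ := ih hc' fun x hx => h x (mem_insert_of_mem hx)
    obtain ⟨u, hu, hua⟩ := h a (mem_insert_self a T)
    have hB : ((insert a T).image fun x => -(w x) / u x).card < A.card :=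
      lt_of_le_of_lt card_image_le hc
    obtain ⟨c, -, hc2⟩ := exists_mem_notMem_of_card_lt_card hB
    refine ⟨w + c • u, W.add_mem hw (W.smul_mem c hu), fun x hx => ?_⟩
    intro h0
    rw [Pi.add_apply, Pi.smul_apply, smul_eq_mul] at h0
    by_cases hux : u x = 0
    · rw [hux, mul_zero, add_zero] at h0
      rcases mem_insert.1 hx with rfl | hx
      · exact hua hux
      · exact hwT x hx h0
    · refine hc2 (mem_image.2 ⟨x, hx, ?_⟩)
      rw [div_eq_iff hux]
      linear_combination -h0

/-- A subspace of `K ^ X` of dimension `n` contains a vector with at least `n` nonzero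
coordinates. -/
theorem exists_support {X : Type*} [Fintype X] [DecidableEq X] [DecidableEq K]
    (W : Submodule K (X → K)) {A : Finset K} (hA : Fintype.card X < A.card) :
    ∃ w ∈ W, finrank K W + (univ.filter fun x => w x = 0).card ≤ Fintype.card X := by
  classical
  let T : Finset X := univ.filter fun x => ∃ w ∈ W, w x ≠ 0
  obtain ⟨w, hw, hwT⟩ := exists_generic W T (lt_of_le_of_lt (card_le_univ T) hA)
    fun x hx => (mem_filter.1 hx).2
  refine ⟨w, hw, ?_⟩
  have h1 : finrank K W ≤ T.card := by
    let ρ : (X → K) →ₗ[K] (T → K) := LinearMap.funLeft K K (fun x : T => (x : X))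
    have hinj : Function.Injective (ρ ∘ₗ W.subtype) := by
      rw [← LinearMap.ker_eq_bot, LinearMap.ker_eq_bot']
      rintro ⟨v, hv⟩ h0
      ext x
      by_cases hx : x ∈ T
      · exact congrFun h0 ⟨x, hx⟩
      · have := not_exists.1 fun h => hx (mem_filter.2 ⟨mem_univ x, h⟩)
        by_contra hne
        exact this v ⟨hv, hne⟩
    have := LinearMap.finrank_le_finrank_of_injective hinj
    simpa using this
  have h2 : (univ.filter fun x => w x = 0).card ≤ (univ \ T).card := by
    refine card_le_card fun x hx => ?_
    rw [mem_sdiff]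
    exact ⟨mem_univ x, fun h => hwT x h (mem_filter.1 hx).2⟩
  have h3 : (univ \ T).card + T.card = Fintype.card X := by
    rw [card_sdiff_add_card_eq_card (subset_univ T), card_univ]
  omega

/-- **Generic choice of functionals.** `D m` are functionals on `E` depending linearly on `m`, and
`y x` are vectors such that the values `D m (y x)`, `x ∈ S`, can be prescribed. If `V` is a
subspace, then some `D m` vanishes on `V` but not on `y x` for all but `dim V` elements `x` of
`S`. -/
theorem exists_functional {F : Type*} [Field F] [Algebra F K] {E : Type*} [AddCommGroup E]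
    [Module F E] [Module K E] [IsScalarTower F K E] {M : Type*} [AddCommGroup M] [Module K M]
    [Module.Finite K M] (D : M →ₗ[K] E →ₗ[K] K) (V : Submodule F E) [Module.Finite F V]
    {X : Type*} [Fintype X] [DecidableEq X] (y : X → E) (S : Finset X)
    (hS : ∀ c : X → K, ∃ m, ∀ x ∈ S, D m (y x) = c x) {A : Finset K}
    (hA : Fintype.card X < A.card) [DecidableEq K] :
    ∃ m, (∀ v ∈ V, D m v = 0) ∧ (S.filter fun x => D m (y x) = 0).card ≤ finrank F V := by
  classical
  let Φ : M →ₗ[K] (V →ₗ[F] K) :=
    { toFun := fun m => ((D m).restrictScalars F).comp V.subtype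
      map_add' := fun m n => by ext v; simp
      map_smul' := fun c m => by ext v; simp }
  let Ψ : M →ₗ[K] (S → K) :=
    { toFun := fun m x => D m (y x)
      map_add' := fun m n => by ext v; simp
      map_smul' := fun c m => by ext v; simp }
  have hΨ : Function.Surjective Ψ := by
    intro c
    obtain ⟨m, hm⟩ := hS fun x => if h : x ∈ S then c ⟨x, h⟩ else 0
    refine ⟨m, funext fun x => ?_⟩
    have := hm x x.2
    simpa [Ψ] using this
  have h1 : finrank K (LinearMap.range Φ) ≤ finrank F V := by
    refine (Submodule.finrank_le _).trans ?_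
    rw [Module.finrank_linearMap, finrank_self, mul_one]
  have h2 := LinearMap.finrank_range_add_finrank_ker Φ
  have h3 := LinearMap.finrank_range_add_finrank_ker Ψ
  rw [LinearMap.range_eq_top.2 hΨ, finrank_top, Module.finrank_pi] at h3
  let U := LinearMap.ker Φ
  have h4 := LinearMap.finrank_range_add_finrank_ker (Ψ ∘ₗ U.subtype)
  have h5 : finrank K (LinearMap.ker (Ψ ∘ₗ U.subtype)) ≤ finrank K (LinearMap.ker Ψ) := by
    let g : LinearMap.ker (Ψ ∘ₗ U.subtype) →ₗ[K] LinearMap.ker Ψ :=
      LinearMap.codRestrict _ (U.subtype ∘ₗ (LinearMap.ker (Ψ ∘ₗ U.subtype)).subtype)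
        (fun v => by
          have := v.2
          rw [LinearMap.mem_ker] at this ⊢
          exact this)
    refine LinearMap.finrank_le_finrank_of_injective (f := g) ?_
    intro v w hvw
    have := congrArg (fun z : LinearMap.ker Ψ => (z : M)) hvw
    exact Subtype.ext (Subtype.ext this)
  obtain ⟨w, hw, hcard⟩ := exists_support (LinearMap.range (Ψ ∘ₗ U.subtype)) (A := A) (by
    refine lt_of_le_of_lt ?_ hA
    rw [Fintype.card_coe]
    exact card_le_univ S)
  obtain ⟨⟨m, hm⟩, rfl⟩ := hw
  refine ⟨m, fun v hv => ?_, ?_⟩
  · have := LinearMap.congr_fun (LinearMap.mem_ker.1 hm) ⟨v, hv⟩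
    exact this
  · have h6 : (S.filter fun x => D m (y x) = 0).card =
        (univ.filter fun x : S => (Ψ ∘ₗ U.subtype) ⟨m, hm⟩ x = 0).card := by
      refine (Finset.card_bij (fun (x : S) _ => (x : X)) ?_ ?_ ?_).symm
      · intro x hx
        exact mem_filter.2 ⟨x.2, (mem_filter.1 hx).2⟩
      · intro x _ x' _ h
        exact Subtype.ext h
      · intro x hx
        exact ⟨⟨x, (mem_filter.1 hx).1⟩, mem_filter.2 ⟨mem_univ _, (mem_filter.1 hx).2⟩, rfl⟩
    rw [h6]
    rw [Fintype.card_coe] at hcard
    have h7 : finrank K U = finrank K (LinearMap.ker Φ) := rfl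
    simp only [Fintype.card_coe] at h3
    omega

end Gen

end Pool.Agent.LinPeb
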