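import Pool.Agent.LinPeb.Core
import Pool.Agent.LinPeb.Count
import Pool.Agent.LinPeb.Expd

/-!
# The graphs

The columns are the pairs `(a, i)` with `a` a subset of `{0, ..., d - 1}` and `i < 128`. There are
`k` blocks of nine layers: in the first step of a block both predecessors of a column are the column
itself; in the other eight steps the column `(a, 0)` is connected by a binary tree to the columns
`(N a u, 0)`, `u < 256`, where `N` is a mixing graph. The last layers are butterflies.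
-/

set_option autoImplicit false

namespace Pool.Agent.LinPeb

open Finset

variable {d : ℕ}

/-- The predecessors: `c = 0` for the first and `c = 1` for the second. -/
def prd (N : Col d → Fin 256 → Col d) (k : ℕ) (c : Fin 2) (ℓ : ℕ) (x : Col d × Fin 128) :
    Col d × Fin 128 :=
  if ℓ < 9 * k then
    if ℓ % 9 = 0 then x
    else if ℓ % 9 = 1 then (N x.1 ⟨2 * x.2.val + c.val, by omega⟩, 0)
    else (x.1, ⟨(2 * x.2.val + c.val) % 128, Nat.mod_lt _ (by norm_num)⟩)
  else if c = 0 then x else (flip d ℓ x.1, x.2)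

theorem prd_zero {N : Col d → Fin 256 → Col d} {k : ℕ} {c : Fin 2} {κ : ℕ} (hκ : κ < k)
    (x : Col d × Fin 128) : prd N k c (9 * κ) x = x := by
  unfold prd
  rw [if_pos (by omega), if_pos (by omega)]

theorem prd_one {N : Col d → Fin 256 → Col d} {k : ℕ} {c : Fin 2} {κ : ℕ} (hκ : κ < k)
    (x : Col d × Fin 128) : prd N k c (9 * κ + 1) x =
      (N x.1 ⟨2 * x.2.val + c.val, by omega⟩, 0) := by
  unfold prd
  rw [if_pos (by omega), if_neg (by omega), if_pos (by omega)]

theorem prd_tree {N : Col d → Fin 256 → Col d} {k : ℕ} {c : Fin 2} {κ t : ℕ} (hκ : κ < k)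
    (ht : t < 7) (x : Col d × Fin 128) : prd N k c (9 * κ + 2 + t) x =
      (x.1, ⟨(2 * x.2.val + c.val) % 128, Nat.mod_lt _ (by norm_num)⟩) := by
  unfold prd
  rw [if_pos (by omega), if_neg (by omega), if_neg (by omega)]

theorem prd_end {N : Col d → Fin 256 → Col d} {k : ℕ} {ℓ : ℕ} (hℓ : 9 * k ≤ ℓ)
    (x : Col d × Fin 128) : prd N k 0 ℓ x = x := by
  unfold prd
  rw [if_neg (by omega), if_pos rfl]

theorem prd_end' {N : Col d → Fin 256 → Col d} {k : ℕ} {ℓ : ℕ} (hℓ : 9 * k ≤ ℓ)
    (x : Col d × Fin 128) : prd N k 1 ℓ x = (flip d ℓ x.1, x.2) := by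
  unfold prd
  rw [if_neg (by omega), if_neg (by decide)]

section Levels

variable {N : Col d → Fin 256 → Col d} {k h r : ℕ} {ρ : ℕ → ℕ}
  {Gd : ℕ → ℕ → ℕ → Finset (Col d × Fin 128) → Prop}

/-- The eight steps with the binary trees. -/
theorem tree_steps (hG : GoodRules (prd N k 0) (prd N k 1) h ρ Gd) {κ : ℕ} (hκ : κ < k)
    (hh : 9 * κ + 9 ≤ h) {s n : ℕ} (hρ : ρ s ≤ r) {G1 : Finset (Col d × Fin 128)}
    (hG1 : Gd s n (9 * κ + 1) G1) : ∀ t, t ≤ 7 → ∃ (G : Finset (Col d × Fin 128))
      (Tc : Finset (Col d)), Gd s n (9 * κ + 2 + t) G ∧ Tc.card ≤ (t + 1) * r ∧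
      ∀ a, a ∉ Tc → ∀ u : Fin 256, (N a u, 0) ∈ G1 →
        (a, (⟨(u.val / 2 ^ (t + 1)) % 128, Nat.mod_lt _ (by norm_num)⟩ : Fin 128)) ∈ G := by
  intro t
  induction t with
  | zero =>
    intro _
    obtain ⟨R, hR, hG2⟩ := hG.una (9 * κ + 1) (by omega) s n G1 hG1
    refine ⟨_, R.image Prod.fst, hG2, ?_, fun a ha u hu => ?_⟩
    · rw [zero_add, one_mul]
      exact card_image_le.trans (hR.trans hρ)
    · rw [mem_sdiff, mem_filter]
      refine ⟨⟨mem_univ _, ?_⟩, fun hmem => ha (mem_image.2 ⟨_, hmem, rfl⟩)⟩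
      rw [prd_one hκ, prd_one hκ]
      have hu2 := u.2
      rcases Nat.even_or_odd' u.val with ⟨j, hj | hj⟩
      · left
        convert hu using 3
        refine Fin.ext ?_
        simp only [zero_add, pow_one, Fin.val_zero, add_zero]
        omega
      · right
        convert hu using 3
        refine Fin.ext ?_
        simp only [zero_add, pow_one, Fin.val_one]
        omega
  | succ t ih =>
    intro ht
    obtain ⟨G, Tc, hGG, hTc, hGu⟩ := ih (by omega)
    obtain ⟨R, hR, hG2⟩ := hG.una (9 * κ + 2 + t) (by omega) s n G hGG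
    refine ⟨_, Tc ∪ R.image Prod.fst, hG2, ?_, fun a ha u hu => ?_⟩
    · refine (card_union_le _ _).trans ?_
      have := card_image_le (s := R) (f := Prod.fst)
      have h1 : (t + 1 + 1) * r = (t + 1) * r + r := by ring
      omega
    · rw [mem_union, not_or] at ha
      rw [mem_sdiff, mem_filter]
      refine ⟨⟨mem_univ _, ?_⟩, fun hmem => ha.2 (mem_image.2 ⟨_, hmem, rfl⟩)⟩
      rw [prd_tree hκ (by omega), prd_tree hκ (by omega)]
      have h1 := hGu a ha.1 u hu
      have hu2 := u.2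
      have h2 : u.val / 2 ^ (t + 1 + 1) = u.val / 2 ^ (t + 1) / 2 := by
        rw [pow_succ, Nat.div_div_eq_div_mul]
      have h3 : u.val / 2 ^ (t + 1) < 128 := by
        have h4 : u.val / 2 ^ (t + 1) = u.val / 2 / 2 ^ t := by
          rw [pow_succ', Nat.div_div_eq_div_mul]
        rw [h4]
        exact lt_of_le_of_lt (Nat.div_le_self _ _) (by omega)
      rcases Nat.even_or_odd' (u.val / 2 ^ (t + 1)) with ⟨j, hj | hj⟩
      · left
        convert h1 using 3
        simp only [Fin.val_zero, add_zero]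
        rw [h2]
        omega
      · right
        convert h1 using 3
        simp only [Fin.val_one]
        rw [h2]
        omega

/-- The induction over the blocks. -/
theorem block_steps (hG : GoodRules (prd N k 0) (prd N k 1) h ρ Gd) (hρ : ∀ s, ρ s ≤ r)
    (hd : 38 * r ≤ 2 ^ d) (hN : ∀ Z : Finset (Col d), 2 * Z.card ≤ Fintype.card (Col d) →
      (univ.filter fun x => ∀ u, N x u ∈ Z).card ≤ r) (κ : ℕ) (hκ : κ ≤ k) (hh : 9 * κ ≤ h) :
    ∀ s, ∃ G, Gd s (2 ^ κ) (9 * κ) G ∧
      (univ.filter fun a : Col d => (a, (0 : Fin 128)) ∉ G).card ≤ 9 * r := by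
  induction κ with
  | zero =>
    intro s
    obtain ⟨R, hR, hG1⟩ := hG.base 0 (Nat.zero_le _) s
    refine ⟨_, hG1, ?_⟩
    have h1 : (univ.filter fun a : Col d => (a, (0 : Fin 128)) ∉ Rᶜ).card ≤ R.card := by
      refine card_le_card_of_injOn (fun a => (a, 0)) (fun a ha => ?_) fun a _ b _ hab => ?_
      · have := (mem_filter.1 (mem_coe.1 ha)).2
        rw [mem_compl, not_not] at this
        exact this
      · exact congrArg Prod.fst hab
    have := hρ s
    omega
  | succ κ ih =>
    intro s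
    obtain ⟨G, hG1, hGc⟩ := ih (by omega) (by omega) s
    obtain ⟨G', hG2, hGc'⟩ := ih (by omega) (by omega) (s + 2 ^ κ)
    obtain ⟨R, hR, hG3⟩ := hG.bil (9 * κ) (by omega) s (2 ^ κ) G G' hG1 hG2
    set G1 : Finset (Col d × Fin 128) :=
      (univ.filter fun x => prd N k 0 (9 * κ) x ∈ G ∧ prd N k 1 (9 * κ) x ∈ G') \ R with hG1def
    set Z : Finset (Col d) := univ.filter fun a : Col d => (a, (0 : Fin 128)) ∉ G1 with hZ
    have hZc : Z.card ≤ 19 * r := by
      have h1 : Z ⊆ (univ.filter fun a : Col d => (a, (0 : Fin 128)) ∉ G) ∪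
          (univ.filter fun a : Col d => (a, (0 : Fin 128)) ∉ G') ∪ R.image Prod.fst := by
        intro a ha
        have ha1 := (mem_filter.1 ha).2
        rw [hG1def, mem_sdiff, mem_filter, prd_zero (by omega), prd_zero (by omega)] at ha1
        by_contra hcon
        rw [mem_union, mem_union, not_or, not_or, mem_filter, mem_filter] at hcon
        obtain ⟨⟨hc1, hc2⟩, hc3⟩ := hcon
        refine ha1 ⟨⟨mem_univ _, ?_, ?_⟩, fun hmem => hc3 (mem_image.2 ⟨_, hmem, rfl⟩)⟩
        · by_contra h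
          exact hc1 ⟨mem_univ _, h⟩
        · by_contra h
          exact hc2 ⟨mem_univ _, h⟩
      have h2 := card_le_card h1
      have h3 := card_union_le ((univ.filter fun a : Col d => (a, (0 : Fin 128)) ∉ G) ∪
          (univ.filter fun a : Col d => (a, (0 : Fin 128)) ∉ G')) (R.image Prod.fst)
      have h4 := card_union_le (univ.filter fun a : Col d => (a, (0 : Fin 128)) ∉ G)
          (univ.filter fun a : Col d => (a, (0 : Fin 128)) ∉ G')
      have h5 := card_image_le (s := R) (f := Prod.fst)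
      have h6 := hρ s
      omega
    have hZ2 := hN Z (by
      rw [Fintype.card_finset, Fintype.card_fin]
      omega)
    obtain ⟨G4, Tc, hG4, hTc, hG4u⟩ := tree_steps hG (κ := κ) (by omega) (by omega) (hρ s)
      hG3 7 le_rfl
    refine ⟨G4, ?_, ?_⟩
    · rw [pow_succ, mul_comm]
      exact hG4
    · have h1 : (univ.filter fun a : Col d => (a, (0 : Fin 128)) ∉ G4) ⊆
          Tc ∪ univ.filter fun x => ∀ u, N x u ∈ Z := by
        intro a ha
        rw [mem_union]
        by_contra hcon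
        rw [not_or, mem_filter, not_and] at hcon
        obtain ⟨hc1, hc2⟩ := hcon
        have hc3 := hc2 (mem_univ a)
        rw [not_forall] at hc3
        obtain ⟨u, hu⟩ := hc3
        rw [hZ, mem_filter, not_and, not_not] at hu
        have h2 := hG4u a hc1 u (hu (mem_univ _))
        refine (mem_filter.1 ha).2 ?_
        convert h2 using 2
        refine Fin.ext ?_
        have hu2 := u.2
        simp only [Fin.val_zero]
        have : u.val / 2 ^ (7 + 1) = 0 := Nat.div_eq_of_lt (by norm_num)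
        rw [this]
      have h2 := card_le_card h1
      have h3 := card_union_le Tc (univ.filter fun x => ∀ u, N x u ∈ Z)
      omega

/-- The last steps: all columns `(a, 0)` are good. -/
theorem last_steps (hd0 : 0 < d) (hG : GoodRules (prd N k 0) (prd N k 1) h ρ Gd)
    (hρ : ρ 0 = 0) {n : ℕ} {G0 : Finset (Col d × Fin 128)} (hG0 : Gd 0 n (9 * k) G0)
    (hc : 2 * (univ.filter fun a : Col d => (a, (0 : Fin 128)) ∉ G0).card ≤ 2 ^ d)
    (hh : 9 * k + d ≤ h) : ∃ G, Gd 0 n h G ∧ ∀ a, (a, (0 : Fin 128)) ∈ G := by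
  have h1 : ∀ j, j ≤ d → ∃ G, Gd 0 n (9 * k + j) G ∧
      Wt hd0 (univ.filter fun a : Col d => (a, (0 : Fin 128)) ∈ G0) 0 (9 * k) j
        (univ.filter fun a : Col d => (a, (0 : Fin 128)) ∈ G) := by
    intro j
    induction j with
    | zero =>
      intro _
      exact ⟨G0, hG0, Wt.zero hd0 _ _ _⟩
    | succ j ih =>
      intro hj
      obtain ⟨G, hG1, hW⟩ := ih (by omega)
      obtain ⟨R, hR, hG2⟩ := hG.una (9 * k + j) (by omega) 0 n G hG1
      rw [hρ, Nat.le_zero, card_eq_zero] at hR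
      subst hR
      refine ⟨_, hG2, hW.succ hd0 (by omega) ∅ (by simp) fun a _ ha => ?_⟩
      rw [mem_filter, mem_filter] at ha
      rw [mem_filter, mem_sdiff, mem_filter, prd_end (by omega), prd_end' (by omega)]
      refine ⟨mem_univ _, ⟨mem_univ _, ?_⟩, notMem_empty _⟩
      rcases ha with ha | ha
      · exact Or.inl ha.2
      · exact Or.inr ha.2
  obtain ⟨G, hG1, hW⟩ := h1 d le_rfl
  have h2 : ∀ a, (a, (0 : Fin 128)) ∈ G := by
    have h3 := hW.final hd0 (by
      have h4 := card_filter_add_card_filter_not (s := (univ : Finset (Col d)))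
        (fun a : Col d => (a, (0 : Fin 128)) ∈ G0)
      rw [card_univ, Fintype.card_finset, Fintype.card_fin] at h4
      omega)
    rw [mul_zero, Nat.le_zero, card_eq_zero] at h3
    intro a
    by_contra ha
    have : a ∈ (univ.filter fun a : Col d => (a, (0 : Fin 128)) ∈ G)ᶜ := by
      rw [mem_compl, mem_filter]
      exact fun h => ha h.2
    rw [h3] at this
    exact notMem_empty _ this
  have h3 : ∀ j, 9 * k + d + j ≤ h → ∃ G, Gd 0 n (9 * k + d + j) G ∧
      ∀ a, (a, (0 : Fin 128)) ∈ G := by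
    intro j
    induction j with
    | zero => exact fun _ => ⟨G, hG1, h2⟩
    | succ j ih =>
      intro hj
      obtain ⟨G, hG1, hGa⟩ := ih (by omega)
      obtain ⟨R, hR, hG2⟩ := hG.una (9 * k + d + j) (by omega) 0 n G hG1
      rw [hρ, Nat.le_zero, card_eq_zero] at hR
      subst hR
      refine ⟨_, hG2, fun a => ?_⟩
      rw [mem_sdiff, mem_filter, prd_end (by omega)]
      exact ⟨⟨mem_univ _, Or.inl (hGa a)⟩, notMem_empty _⟩
  obtain ⟨G, hG4, hG5⟩ := h3 (h - (9 * k + d)) (by omega)
  refine ⟨G, ?_, hG5⟩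
  have : 9 * k + d + (h - (9 * k + d)) = h := by omega
  rwa [this] at hG4

/-- **The combinatorial part of the lower bound.** -/
theorem graph_good (hd0 : 0 < d) (hG : GoodRules (prd N k 0) (prd N k 1) h ρ Gd)
    (hρ : ∀ s, ρ s ≤ r) (hρ0 : ρ 0 = 0)
    (hd : 38 * r ≤ 2 ^ d) (hN : ∀ Z : Finset (Col d), 2 * Z.card ≤ Fintype.card (Col d) →
      (univ.filter fun x => ∀ u, N x u ∈ Z).card ≤ r) (hh : 9 * k + d ≤ h) :
    ∃ G, Gd 0 (2 ^ k) h G ∧ ∀ a, (a, (0 : Fin 128)) ∈ G := by
  obtain ⟨G, hG1, hG2⟩ := block_steps hG hρ hd hN k le_rfl (by omega) 0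
  exact last_steps hd0 hG hρ0 hG1 (by omega) hh

end Levels

end Pool.Agent.LinPeb
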