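import Pool.Agent.LinPeb.Defs

/-!
# Upper bounds: the method of Ben-Or and Cleve, and the obvious computation

Every node of the layer `ℓ` can be evaluated with three registers in `5 ^ (ℓ + 1)` rounds, and with
one register for every column in `ℓ + 1` rounds.
-/

set_option autoImplicit false

namespace Pool.Agent.LinPeb

open Finset

section Upper

variable {F E : Type*} [Field F] [AddCommGroup E] [Module F E] {X : Type} {r : ℕ} {h : ℕ}
  {f : ℕ → X → NodeMap F E}

/-- The vectors which can be stored after the next round if the registers contain `u`. -/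
def nxt (h : ℕ) (f : ℕ → X → NodeMap F E) (u : Fin r → E) : Submodule F E :=
  Submodule.span F (Set.range u) ⊔
    Submodule.span F {y | ∃ ℓ ≤ h, ∃ x, ∃ a ∈ Submodule.span F (Set.range u),
      ∃ b ∈ Submodule.span F (Set.range u), y = (f ℓ x).app a b}

/-- The contents `v` can be reached from the contents `u` in `n` rounds. -/
inductive Reach (h : ℕ) (f : ℕ → X → NodeMap F E) (u : Fin r → E) : ℕ → (Fin r → E) → Prop
  | refl : Reach h f u 0 u
  | step {n : ℕ} {v w : Fin r → E} : Reach h f u n v → (∀ i, w i ∈ nxt h f v) →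
      Reach h f u (n + 1) w

theorem mem_nxt (u : Fin r → E) (i : Fin r) : u i ∈ nxt h f u :=
  Submodule.mem_sup_left (Submodule.subset_span ⟨i, rfl⟩)

theorem app_mem {u : Fin r → E} {ℓ : ℕ} (hℓ : ℓ ≤ h) (x : X) {a b : E}
    (ha : a ∈ Submodule.span F (Set.range u)) (hb : b ∈ Submodule.span F (Set.range u)) :
    (f ℓ x).app a b ∈ nxt h f u :=
  Submodule.mem_sup_right (Submodule.subset_span ⟨ℓ, hℓ, x, a, ha, b, hb, rfl⟩)

theorem Reach.trans {u v w : Fin r → E} {n m : ℕ} (h1 : Reach h f u n v)
    (h2 : Reach h f v m w) : Reach h f u (n + m) w := by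
  induction h2 with
  | refl => exact h1
  | step _ hw ih => exact Reach.step ih hw

theorem Reach.pad {u v : Fin r → E} {n m : ℕ} (h1 : Reach h f u n v) (hnm : n ≤ m) :
    Reach h f u m v := by
  induction m, hnm using Nat.le_induction with
  | base => exact h1
  | succ m _ ih => exact Reach.step ih fun i => mem_nxt v i

/-- The function of the contents of the registers. -/
theorem Reach.exists {u v : Fin r → E} {n : ℕ} (h1 : Reach h f u n v) :
    ∃ R : ℕ → Fin r → E, R 0 = u ∧ R n = v ∧ ∀ t < n, ∀ i, R (t + 1) i ∈ nxt h f (R t) := by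
  induction h1 with
  | refl => exact ⟨fun _ => u, rfl, rfl, fun t ht => absurd ht (Nat.not_lt_zero t)⟩
  | @step n v w _ hw ih =>
    obtain ⟨R, h1, h2, h3⟩ := ih
    refine ⟨fun t => if t ≤ n then R t else w, ?_, ?_, fun t ht i => ?_⟩
    · beta_reduce
      rw [if_pos (Nat.zero_le _), h1]
    · beta_reduce
      rw [if_neg (by omega)]
    · by_cases htn : t < n
      · simp only [if_pos (Nat.succ_le_of_lt htn), if_pos htn.le]
        exact h3 t htn i
      · have : t = n := by omega
        subst this
        simp only [if_neg (Nat.not_succ_le_self t), if_pos le_rfl]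
        rw [h2]
        exact hw i

theorem Reach.isComputation {v : Fin r → E} {n : ℕ} (h1 : Reach h f (fun _ => 0) n v) :
    ∃ R : ℕ → Fin r → E, IsComputation h f n R ∧ R n = v := by
  obtain ⟨R, h1, h2, h3⟩ := h1.exists
  exact ⟨R, ⟨fun i => by rw [h1], h3⟩, h2⟩

/-- One round: adding a linear combination of answers to a register. -/
theorem Reach.add {u : Fin r → E} (i : Fin r) {z : E} (hz : z ∈ nxt h f u) :
    Reach h f u 1 (Function.update u i (u i + z)) := by
  refine Reach.step Reach.refl fun l => ?_
  by_cases hl : l = i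
  · subst hl
    rw [Function.update_self]
    exact Submodule.add_mem _ (mem_nxt u l) hz
  · rw [Function.update_of_ne hl]
    exact mem_nxt u l

/-- **The method of Ben-Or and Cleve.** -/
theorem reach_value (p q : ℕ → X → X) : ∀ ℓ ≤ h, ∀ (x : X) (c : F) (u : Fin r → E)
    (i j k : Fin r), i ≠ j → i ≠ k → j ≠ k →
      Reach h f u (5 ^ (ℓ + 1)) (Function.update u i (u i + c • value p q f ℓ x)) := by
  intro ℓ
  induction ℓ with
  | zero =>
    intro hℓ x c u i j k _ _ _
    refine (Reach.add i (z := c • value p q f 0 x) (Submodule.smul_mem _ _ ?_)).pad (by norm_num)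
    have := app_mem (f := f) (u := u) hℓ x (Submodule.zero_mem _) (Submodule.zero_mem _)
    simpa [NodeMap.app, value] using this
  | succ ℓ ih =>
    intro hℓ x c u i j k hij hik hjk
    have ih' := ih (by omega)
    set ya := value p q f ℓ (p ℓ x) with hya
    set yb := value p q f ℓ (q ℓ x) with hyb
    set g := f (ℓ + 1) x with hg
    -- the contents after the nine parts
    set z0 : E := c • (g.app (u j) (u k) - g.app (u j) 0 - g.app 0 (u k) + g.app 0 0) with hz0
    set u1 := Function.update u i (u i + z0) with hu1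
    set u2 := Function.update u1 j (u1 j + (1 : F) • ya) with hu2
    set z2 : E := c • (g.app (u2 j) 0 - g.app (u2 j) (u2 k)) with hz2
    set u3 := Function.update u2 i (u2 i + z2) with hu3
    set u4 := Function.update u3 k (u3 k + (1 : F) • yb) with hu4
    set z4 : E := c • g.app (u4 j) (u4 k) with hz4
    set u5 := Function.update u4 i (u4 i + z4) with hu5
    set u6 := Function.update u5 j (u5 j + (-1 : F) • ya) with hu6
    set z6 : E := c • (g.app 0 (u6 k) - g.app (u6 j) (u6 k)) with hz6
    set u7 := Function.update u6 i (u6 i + z6) with hu7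
    set u8 := Function.update u7 k (u7 k + (-1 : F) • yb) with hu8
    have hmem : ∀ (v : Fin r → E) (l : Fin r), v l ∈ Submodule.span F (Set.range v) :=
      fun v l => Submodule.subset_span ⟨l, rfl⟩
    have s1 : Reach h f u 1 u1 := Reach.add i (Submodule.smul_mem _ _ (Submodule.add_mem _
      (Submodule.sub_mem _ (Submodule.sub_mem _ (app_mem hℓ x (hmem u j) (hmem u k))
        (app_mem hℓ x (hmem u j) (Submodule.zero_mem _)))
          (app_mem hℓ x (Submodule.zero_mem _) (hmem u k)))
            (app_mem hℓ x (Submodule.zero_mem _) (Submodule.zero_mem _))))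
    have s2 : Reach h f u1 (5 ^ (ℓ + 1)) u2 := ih' (p ℓ x) 1 u1 j i k hij.symm hjk hik
    have s3 : Reach h f u2 1 u3 := Reach.add i (Submodule.smul_mem _ _ (Submodule.sub_mem _
      (app_mem hℓ x (hmem u2 j) (Submodule.zero_mem _)) (app_mem hℓ x (hmem u2 j) (hmem u2 k))))
    have s4 : Reach h f u3 (5 ^ (ℓ + 1)) u4 := ih' (q ℓ x) 1 u3 k i j hik.symm hjk.symm hij
    have s5 : Reach h f u4 1 u5 := Reach.add i (Submodule.smul_mem _ _
      (app_mem hℓ x (hmem u4 j) (hmem u4 k)))
    have s6 : Reach h f u5 (5 ^ (ℓ + 1)) u6 := ih' (p ℓ x) (-1) u5 j i k hij.symm hjk hik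
    have s7 : Reach h f u6 1 u7 := Reach.add i (Submodule.smul_mem _ _ (Submodule.sub_mem _
      (app_mem hℓ x (Submodule.zero_mem _) (hmem u6 k)) (app_mem hℓ x (hmem u6 j) (hmem u6 k))))
    have s8 : Reach h f u7 (5 ^ (ℓ + 1)) u8 := ih' (q ℓ x) (-1) u7 k i j hik.symm hjk.symm hij
    have hlast : u8 = Function.update u i (u i + c • value p q f (ℓ + 1) x) := by
      have e1j : u1 j = u j := Function.update_of_ne hij.symm _ _
      have e1k : u1 k = u k := Function.update_of_ne hik.symm _ _
      have e1i : u1 i = u i + z0 := Function.update_self _ _ _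
      have e2j : u2 j = u j + ya := by rw [hu2, Function.update_self, e1j, one_smul]
      have e2k : u2 k = u k := by rw [hu2, Function.update_of_ne hjk.symm, e1k]
      have e2i : u2 i = u i + z0 := by rw [hu2, Function.update_of_ne hij, e1i]
      have e3j : u3 j = u j + ya := by rw [hu3, Function.update_of_ne hij.symm, e2j]
      have e3k : u3 k = u k := by rw [hu3, Function.update_of_ne hik.symm, e2k]
      have e3i : u3 i = u i + z0 + z2 := by rw [hu3, Function.update_self, e2i]
      have e4j : u4 j = u j + ya := by rw [hu4, Function.update_of_ne hjk, e3j]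
      have e4k : u4 k = u k + yb := by rw [hu4, Function.update_self, e3k, one_smul]
      have e4i : u4 i = u i + z0 + z2 := by rw [hu4, Function.update_of_ne hik, e3i]
      have e5j : u5 j = u j + ya := by rw [hu5, Function.update_of_ne hij.symm, e4j]
      have e5k : u5 k = u k + yb := by rw [hu5, Function.update_of_ne hik.symm, e4k]
      have e5i : u5 i = u i + z0 + z2 + z4 := by rw [hu5, Function.update_self, e4i]
      have e6j : u6 j = u j := by
        rw [hu6, Function.update_self, e5j, neg_smul, one_smul]
        abel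
      have e6k : u6 k = u k + yb := by rw [hu6, Function.update_of_ne hjk.symm, e5k]
      have e6i : u6 i = u i + z0 + z2 + z4 := by rw [hu6, Function.update_of_ne hij, e5i]
      have e7j : u7 j = u j := by rw [hu7, Function.update_of_ne hij.symm, e6j]
      have e7k : u7 k = u k + yb := by rw [hu7, Function.update_of_ne hik.symm, e6k]
      have e7i : u7 i = u i + z0 + z2 + z4 + z6 := by rw [hu7, Function.update_self, e6i]
      have hsum : z0 + z2 + z4 + z6 = c • value p q f (ℓ + 1) x := by
        rw [hz0, hz2, hz4, hz6, e2j, e2k, e4j, e4k, e6j, e6k, value, ← hya, ← hyb, ← hg,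
          ← smul_add, ← smul_add, ← smul_add]
        congr 1
        simp only [NodeMap.app, map_add, map_zero, LinearMap.add_apply, LinearMap.zero_apply]
        abel
      funext l
      by_cases hli : l = i
      · subst hli
        rw [Function.update_self, hu8, Function.update_of_ne hik, e7i, ← hsum]
        abel
      · rw [Function.update_of_ne hli]
        by_cases hlj : l = j
        · subst hlj
          rw [hu8, Function.update_of_ne hjk, e7j]
        · by_cases hlk : l = k
          · subst hlk
            rw [hu8, Function.update_self, e7k, neg_smul, one_smul]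
            abel
          · rw [hu8, Function.update_of_ne hlk, hu7, Function.update_of_ne hli, hu6,
              Function.update_of_ne hlj, hu5, Function.update_of_ne hli, hu4,
              Function.update_of_ne hlk, hu3, Function.update_of_ne hli, hu2,
              Function.update_of_ne hlj, hu1, Function.update_of_ne hli]
    rw [← hlast]
    refine (s1.trans (s2.trans (s3.trans (s4.trans (s5.trans (s6.trans (s7.trans s8))))))).pad ?_
    have h5 : 4 ≤ 5 ^ (ℓ + 1) := by
      have : 5 ^ 1 ≤ 5 ^ (ℓ + 1) := Nat.pow_le_pow_right (by norm_num) (by omega)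
      omega
    rw [pow_succ 5 (ℓ + 1)]
    omega

/-- One register for every column. -/
theorem reach_layers [Fintype X] (p q : ℕ → X → X) (hr : Fintype.card X ≤ r) :
    ∃ σ : X ↪ Fin r, ∀ ℓ ≤ h, ∃ v : Fin r → E, Reach h f (fun _ => 0) (ℓ + 1) v ∧
      ∀ x, v (σ x) = value p q f ℓ x := by
  classical
  obtain ⟨σ⟩ : Nonempty (X ↪ Fin r) :=
    Function.Embedding.nonempty_of_card_le (by rwa [Fintype.card_fin])
  refine ⟨σ, fun ℓ => ?_⟩
  induction ℓ with
  | zero =>
    intro hℓ
    refine ⟨fun i => if hi : ∃ x, σ x = i then value p q f 0 hi.choose else 0,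
      Reach.step Reach.refl fun i => ?_, fun x => ?_⟩
    · split_ifs with hi
      · have := app_mem (f := f) (u := fun _ : Fin r => (0 : E)) hℓ hi.choose
          (Submodule.zero_mem _) (Submodule.zero_mem _)
        simpa [NodeMap.app, value] using this
      · exact Submodule.zero_mem _
    · have hi : ∃ x', σ x' = σ x := ⟨x, rfl⟩
      beta_reduce
      rw [dif_pos hi, σ.injective hi.choose_spec]
  | succ ℓ ih =>
    intro hℓ
    obtain ⟨v, hv1, hv2⟩ := ih (by omega)
    refine ⟨fun i => if hi : ∃ x, σ x = i then value p q f (ℓ + 1) hi.choose else 0,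
      Reach.step hv1 fun i => ?_, fun x => ?_⟩
    · split_ifs with hi
      · rw [value, ← hv2, ← hv2]
        exact app_mem hℓ _ (Submodule.subset_span ⟨_, rfl⟩) (Submodule.subset_span ⟨_, rfl⟩)
      · exact Submodule.zero_mem _
    · have hi : ∃ x', σ x' = σ x := ⟨x, rfl⟩
      beta_reduce
      rw [dif_pos hi, σ.injective hi.choose_spec]

/-- **The upper bound.** -/
theorem upper_bound [Fintype X] (p q : ℕ → X → X) (f : ℕ → X → NodeMap F E) {N : ℕ}
    (hN : (h + 1) * Fintype.card X ≤ N) (hr : 3 ≤ r) (x : X) :
    ∃ R : ℕ → Fin r → E, IsComputation h f (N + 5 ^ (N / r)) R ∧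
      ∃ i, R (N + 5 ^ (N / r)) i = value p q f h x := by
  classical
  by_cases hX : Fintype.card X ≤ r
  · obtain ⟨σ, hσ⟩ := reach_layers (h := h) (f := f) p q hX
    obtain ⟨v, hv1, hv2⟩ := hσ h le_rfl
    have h0 : 0 < Fintype.card X := Fintype.card_pos_iff.2 ⟨x⟩
    have h1 : h + 1 ≤ N + 5 ^ (N / r) :=
      ((Nat.le_mul_of_pos_right (h + 1) h0).trans hN).trans (Nat.le_add_right _ _)
    obtain ⟨R, hR1, hR2⟩ := (hv1.pad h1).isComputation
    exact ⟨R, hR1, σ x, by rw [hR2, hv2]⟩
  · have h2 : h + 1 ≤ N / r := by
      rw [Nat.le_div_iff_mul_le (by omega)]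
      exact (Nat.mul_le_mul_left _ (by omega)).trans hN
    have h3 := reach_value (f := f) (r := r) p q h le_rfl x 1 (fun _ => 0) ⟨0, by omega⟩
      ⟨1, by omega⟩ ⟨2, by omega⟩ (by simp) (by simp) (by simp)
    have h4 : 5 ^ (h + 1) ≤ N + 5 ^ (N / r) :=
      (Nat.pow_le_pow_right (by norm_num) h2).trans (Nat.le_add_left _ _)
    obtain ⟨R, hR1, hR2⟩ := (h3.pad h4).isComputation
    refine ⟨R, hR1, ⟨0, by omega⟩, ?_⟩
    rw [hR2, Function.update_self, zero_add, one_smul]

end Upper

end Pool.Agent.LinPeb
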