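import Pool.Agent.LinPeb.Field
import Pool.Agent.LinPeb.Upper

/-!
# The trade-off between the number of registers and the number of rounds
-/

set_option autoImplicit false

namespace Pool.Agent.LinPeb

open Module Finset

universe u

/-- The lower bound in terms of the numbers of nodes, registers and rounds. -/
theorem trade_off_lower (N r : ℕ) (hN : 1 ≤ N) (hr : 1 ≤ r) :
    ∃ (h : ℕ) (X : Type) (_ : Fintype X) (p q : ℕ → X → X) (o : X),
      (h + 1) * Fintype.card X ≤ N ∧ ∀ (F : Type u) [Field F],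
        ∃ (m : ℕ) (f : ℕ → X → NodeMap F (Fin m → F)),
          ∀ (T : ℕ) (R : ℕ → Fin r → (Fin m → F)), IsComputation h f T R →
            value p q f h o ∈ Submodule.span F (Set.range (R T)) →
              N ≤ 165376 * r * (Nat.log 2 r + Nat.log 2 T + 1) := by
  classical
  obtain ⟨d, hd1, hd2⟩ : ∃ d, 38 * r ≤ 2 ^ d ∧ 2 ^ d < 76 * r := by
    refine ⟨Nat.clog 2 (38 * r), Nat.le_pow_clog (by norm_num) _, ?_⟩
    have h1 := Nat.pow_pred_clog_lt_self (b := 2) (by norm_num) (x := 38 * r) (by omega)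
    have h2 : 0 < Nat.clog 2 (38 * r) := Nat.clog_pos (by norm_num) (by omega)
    have h3 : Nat.clog 2 (38 * r) = (Nat.clog 2 (38 * r)).pred + 1 := by
      rw [Nat.pred_eq_sub_one]
      omega
    rw [h3, pow_succ]
    omega
  have hd0 : 0 < d := by
    rcases Nat.eq_zero_or_pos d with rfl | h
    · rw [pow_zero] at hd1
      omega
    · exact h
  have hdlog : d ≤ Nat.log 2 r + 7 := by
    have h1 : r < 2 ^ (Nat.log 2 r + 1) := Nat.lt_pow_succ_log_self (by norm_num) r
    have h2 : 2 ^ d < 2 ^ (Nat.log 2 r + 8) := by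
      have h3 : (2 : ℕ) ^ (Nat.log 2 r + 8) = 128 * 2 ^ (Nat.log 2 r + 1) := by
        rw [pow_succ, pow_add 2 (Nat.log 2 r) 7, pow_succ]
        norm_num
        ring
      omega
    have := (Nat.pow_lt_pow_iff_right (by norm_num : 1 < 2)).1 h2
    omega
  have hcard : Fintype.card (Col d × Fin 128) = 2 ^ d * 128 := by
    rw [Fintype.card_prod, Fintype.card_finset, Fintype.card_fin, Fintype.card_fin]
  obtain ⟨Nb, hNb⟩ := exists_mixing (A := Col d) 256 r (by
    rw [Fintype.card_finset, Fintype.card_fin]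
    omega) (by
    rw [Fintype.card_finset, Fintype.card_fin]
    positivity)
  set W := 2 ^ d * 128 with hW
  have hWr : W ≤ 9728 * r := by omega
  have hW0 : 0 < W := by omega
  have hbig : ∀ T : ℕ, (∀ k, 9 * k + d ≤ N / W - 1 → k ≤ Nat.log 2 T) →
      N ≤ 165376 * r * (Nat.log 2 r + Nat.log 2 T + 1) := by
    intro T hT
    set L := Nat.log 2 T
    set h := N / W - 1 with hh
    have h1 : h ≤ 9 * L + 8 + d := by
      by_contra hcon
      have := hT (L + 1) (by omega)
      omega
    have h2 : N < (N / W + 1) * W := by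
      rw [mul_comm]
      exact Nat.lt_mul_div_succ N hW0
    have h3 : N / W + 1 ≤ 17 * (Nat.log 2 r + L + 1) := by omega
    calc N ≤ (N / W + 1) * W := h2.le
      _ ≤ (17 * (Nat.log 2 r + L + 1)) * (9728 * r) := Nat.mul_le_mul h3 hWr
      _ = 165376 * r * (Nat.log 2 r + L + 1) := by ring
  by_cases hNW : N < W
  · refine ⟨0, Unit, inferInstance, fun _ x => x, fun _ x => x, (), by simpa using hN,
      fun F _ => ⟨0, fun _ _ => ⟨0, 0, 0, 0⟩, fun T R _ _ => hbig T fun k hk => ?_⟩⟩
    rw [Nat.div_eq_of_lt hNW] at hk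
    omega
  · have hNW1 : 1 ≤ N / W := (Nat.one_le_div_iff hW0).2 (by omega)
    refine ⟨N / W - 1, Col d × Fin 128, inferInstance, prd Nb (((N / W - 1) - d) / 9) 0,
      prd Nb (((N / W - 1) - d) / 9) 1, (∅, 0), ?_, fun F _ => ?_⟩
    · rw [hcard, Nat.sub_add_cancel hNW1]
      exact Nat.div_mul_le_self N W
    · by_cases hdh : d ≤ N / W - 1
      · obtain ⟨m, f, hf⟩ := lower_bound F (k := ((N / W - 1) - d) / 9) (h := N / W - 1) hd0 hd1
          hNb (by omega)
        refine ⟨m, f, fun T R hR hval => hbig T fun k hk => ?_⟩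
        by_contra hcon
        refine hf T R hR ?_ hval
        have h1 : T < 2 ^ (Nat.log 2 T + 1) := Nat.lt_pow_succ_log_self (by norm_num) T
        refine h1.trans_le (Nat.pow_le_pow_right (by norm_num) ?_)
        omega
      · exact ⟨0, fun _ _ => ⟨0, 0, 0, 0⟩, fun T R _ _ => hbig T fun k hk => by omega⟩

end Pool.Agent.LinPeb
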